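import Pool.Agent.BOX.StmtsG

/-!
# REC of the squad BOX (problem MP_be01ff_an)

The approximate solutions of all orders.
-/

set_option autoImplicit false

namespace Pool.Agent.BOX.H69

open Set Filter Topology MeasureTheory
open Pool.Agent.BOX

variable {P Q : Type} [AddCommGroup P] [AddCommGroup Q]

theorem Vp_summable {F : P × Q → ℂ} (hF : Summable fun g => ‖F g‖) :
    Summable fun g => ‖Vp F g‖ := by
  have hinj : Function.Injective fun g : P × Q => ((-g.1, g.2) : P × Q) := by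
    intro g h hgh
    have h0 : ((-g.1, g.2) : P × Q) = (-h.1, h.2) := hgh
    exact Prod.ext (neg_injective (Prod.mk.inj h0).1) (Prod.mk.inj h0).2
  have h1 : Summable fun g : P × Q => ‖F (-g.1, g.2)‖ := hF.comp_injective hinj
  refine Summable.of_nonneg_of_le (fun g => norm_nonneg _) (fun g => ?_)
    ((hF.add h1).div_const 2)
  unfold Vp
  rw [norm_div, RCLike.norm_ofNat]
  refine div_le_div_of_nonneg_right ?_ (by norm_num)
  refine (norm_add_le _ _).trans ?_
  rw [RCLike.norm_conj]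

theorem Vp_add (F G : P × Q → ℂ) : Vp (fun g => F g + G g) = fun g => Vp F g + Vp G g := by
  funext g
  unfold Vp
  rw [map_add]
  ring

theorem Cub_congr {W W' : ℕ → P × Q → ℂ} {n : ℕ} (h : ∀ i ≤ n, W i = W' i) (g : P × Q) :
    Cub W n g = Cub W' n g := by
  unfold Cub
  refine Finset.sum_congr rfl fun a ha => Finset.sum_congr rfl fun b hb => ?_
  rw [Finset.mem_range] at ha hb
  rw [h a (by omega), h b (by omega), h (n - a - b) (by omega)]

theorem Eqn_congr {θ : P →+ ℝ} {om : Q → ℝ} {W W' : ℕ → P × Q → ℂ} {β β' : ℕ → ℝ} {j : ℕ}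
    (h : ∀ i < j, W i = W' i) (hb : ∀ i, 1 ≤ i → i ≤ j → β i = β' i) {g : P × Q}
    (hL : (sg θ om g : ℂ) * W j g = (sg θ om g : ℂ) * W' j g)
    (he : Eqn θ om W β j g) : Eqn θ om W' β' j g := by
  unfold Eqn at he ⊢
  rw [mul_assoc, ← hL, ← mul_assoc, he]
  congr 1
  · refine Finset.sum_congr rfl fun i hi => ?_
    rw [Finset.mem_Icc] at hi
    rw [hb i hi.1 hi.2, h (j - i) (by omega)]
  · split_ifs with hj
    · rfl
    · exact Cub_congr (fun i hi => h i (by omega)) g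

/-- The right hand side of order `n + 1`. -/
noncomputable def rh (W : ℕ → P × Q → ℂ) (β : ℕ → ℝ) (n : ℕ) (g : P × Q) : ℂ :=
  ∑ i ∈ Finset.Icc 1 (n + 1), ((β i * (2 * (((n + 1 : ℕ) : ℝ) - i) + 1) : ℝ) : ℂ) *
    W (n + 1 - i) g - Cub W n g

theorem Eqn_succ (θ : P →+ ℝ) (om : Q → ℝ) (W : ℕ → P × Q → ℂ) (β : ℕ → ℝ) (n : ℕ) (g : P × Q) :
    Eqn θ om W β (n + 1) g ↔ Complex.I * (sg θ om g : ℂ) * W (n + 1) g = rh W β n g := by
  unfold Eqn rh
  rw [if_neg (Nat.succ_ne_zero n), Nat.add_sub_cancel]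

theorem rh_congr {W W' : ℕ → P × Q → ℂ} {β : ℕ → ℝ} {n : ℕ} (h : ∀ i ≤ n, W i = W' i)
    (g : P × Q) : rh W β n g = rh W' β n g := by
  unfold rh
  rw [Cub_congr h g]
  congr 1
  refine Finset.sum_congr rfl fun i hi => ?_
  rw [Finset.mem_Icc] at hi
  rw [h (n + 1 - i) (by omega)]

/-! ### The cube after a change of the last term -/

theorem T3_add2 (t3s : T3sStmt) {F G G' H : P × Q → ℂ} (hF : Summable fun g => ‖F g‖)
    (hG : Summable fun g => ‖G g‖) (hG' : Summable fun g => ‖G' g‖)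
    (hH : Summable fun g => ‖H g‖) (g : P × Q) :
    T3 F (fun x => G x + G' x) H g = T3 F G H g + T3 F G' H g := by
  have hGG : Summable fun g => ‖G g + G' g‖ :=
    Summable.of_nonneg_of_le (fun _ => norm_nonneg _) (fun _ => norm_add_le _ _) (hG.add hG')
  rw [(t3s (P × Q) ℂ F F (fun x => G x + G' x) H hF hF hGG hH g).2.1,
    (t3s (P × Q) ℂ G G' F H hG hG' hF hH g).1,
    (t3s (P × Q) ℂ F F G H hF hF hG hH g).2.1, (t3s (P × Q) ℂ F F G' H hF hF hG' hH g).2.1]

theorem T3_add3 (t3s : T3sStmt) {F G H H' : P × Q → ℂ} (hF : Summable fun g => ‖F g‖)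
    (hG : Summable fun g => ‖G g‖) (hH : Summable fun g => ‖H g‖)
    (hH' : Summable fun g => ‖H' g‖) (g : P × Q) :
    T3 F G (fun x => H x + H' x) g = T3 F G H g + T3 F G H' g := by
  have hHH : Summable fun g => ‖H g + H' g‖ :=
    Summable.of_nonneg_of_le (fun _ => norm_nonneg _) (fun _ => norm_add_le _ _) (hH.add hH')
  rw [(t3s (P × Q) ℂ F F G (fun x => H x + H' x) hF hF hG hHH g).2.2.1,
    T3_add2 t3s hF hH hH' hG g,
    (t3s (P × Q) ℂ F F G H hF hF hG hH g).2.2.1, (t3s (P × Q) ℂ F F G H' hF hF hG hH' g).2.2.1]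

theorem sum1 (K : ℕ) (D : ℂ) :
    ∑ a ∈ Finset.range (K + 1), ∑ _b ∈ Finset.range (K + 1 - a), (if a = K then D else 0) = D := by
  rw [Finset.sum_eq_single K]
  · simp
  · intro a _ ha
    simp [ha]
  · intro h
    exact absurd (Finset.mem_range.2 (Nat.lt_succ_self K)) h

theorem sum2 (K : ℕ) (D : ℂ) :
    ∑ a ∈ Finset.range (K + 1), ∑ b ∈ Finset.range (K + 1 - a), (if b = K then D else 0) = D := by
  rw [Finset.sum_eq_single 0]
  · rw [Finset.sum_ite_eq']
    simp
  · intro a _ ha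
    rw [Finset.sum_ite_eq', if_neg]
    rw [Finset.mem_range]
    omega
  · intro h
    exact absurd (Finset.mem_range.2 (Nat.succ_pos K)) h

theorem sum3 (K : ℕ) (D : ℂ) :
    ∑ a ∈ Finset.range (K + 1), ∑ b ∈ Finset.range (K + 1 - a),
      (if a = 0 ∧ b = 0 then D else 0) = D := by
  rw [Finset.sum_eq_single 0]
  · rw [Finset.sum_eq_single 0]
    · simp
    · intro b _ hb
      simp [hb]
    · intro h
      exact absurd (Finset.mem_range.2 (by omega)) h
  · intro a _ ha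
    simp [ha]
  · intro h
    exact absurd (Finset.mem_range.2 (Nat.succ_pos K)) h

theorem Cub_update (t3s : T3sStmt) {W W' : ℕ → P × Q → ℂ} {Z : P × Q → ℂ} {K : ℕ} (hK : 1 ≤ K)
    (hW : ∀ j ≤ K, Summable fun g => ‖W j g‖) (hZ : Summable fun g => ‖Z g‖)
    (h1 : ∀ j < K, W' j = W j) (h2 : W' K = fun g => W K g + Z g) (g : P × Q) :
    Cub W' K g = Cub W K g + 3 * T3 (Vp (W 0)) (Vp (W 0)) (Vp Z) g := by
  obtain ⟨D, hD⟩ : ∃ D, D = T3 (Vp (W 0)) (Vp (W 0)) (Vp Z) g := ⟨_, rfl⟩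
  rw [← hD]
  have hV : ∀ j ≤ K, Summable fun g => ‖Vp (W j) g‖ := fun j hj => Vp_summable (hW j hj)
  have hVZ := Vp_summable hZ
  have hVK : Vp (W' K) = fun g => Vp (W K) g + Vp Z g := by
    rw [h2, Vp_add]
  have h0 : W' 0 = W 0 := h1 0 (by omega)
  have hV0 := hV 0 (Nat.zero_le K)
  have key : ∀ a b, a < K + 1 → b < K + 1 - a →
      T3 (Vp (W' a)) (Vp (W' b)) (Vp (W' (K - a - b))) g =
      T3 (Vp (W a)) (Vp (W b)) (Vp (W (K - a - b))) g + (if a = K then D else 0) +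
        (if b = K then D else 0) + (if a = 0 ∧ b = 0 then D else 0) := by
    intro a b ha hb
    by_cases haK : a = K
    · have hb0 : b = 0 := by omega
      subst hb0
      subst haK
      rw [if_pos rfl, if_neg (by omega), if_neg (by omega)]
      have e1 : a - a - 0 = 0 := by omega
      rw [e1, h0, hVK, (t3s (P × Q) ℂ _ _ _ _ (hV a le_rfl) hVZ hV0 hV0 g).1,
        (t3s (P × Q) ℂ (Vp Z) (Vp Z) _ _ hVZ hVZ hV0 hV0 g).2.1,
        (t3s (P × Q) ℂ _ _ (Vp Z) _ hV0 hV0 hVZ hV0 g).2.2.1, hD]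
      ring
    · by_cases hbK : b = K
      · have ha0 : a = 0 := by omega
        subst ha0
        subst hbK
        rw [if_neg (by omega), if_pos rfl, if_neg (by omega)]
        have e1 : b - 0 - b = 0 := by omega
        rw [e1, h0, hVK, T3_add2 t3s hV0 (hV b le_rfl) hVZ hV0 g,
          (t3s (P × Q) ℂ _ _ (Vp Z) _ hV0 hV0 hVZ hV0 g).2.2.1, hD]
        ring
      · by_cases h00 : a = 0 ∧ b = 0
        · obtain ⟨ha0, hb0⟩ := h00
          subst ha0
          subst hb0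
          rw [if_neg haK, if_pos ⟨rfl, rfl⟩]
          have e1 : K - 0 - 0 = K := by omega
          rw [e1, h0, hVK, T3_add3 t3s hV0 hV0 (hV K le_rfl) hVZ g, hD]
          ring
        · rw [if_neg haK, if_neg hbK, if_neg h00, h1 a (by omega), h1 b (by omega),
            h1 (K - a - b) (by omega)]
          ring
  unfold Cub
  have h3 : ∑ a ∈ Finset.range (K + 1), ∑ b ∈ Finset.range (K + 1 - a),
      T3 (Vp (W' a)) (Vp (W' b)) (Vp (W' (K - a - b))) g =
      ∑ a ∈ Finset.range (K + 1), ∑ b ∈ Finset.range (K + 1 - a),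
        (T3 (Vp (W a)) (Vp (W b)) (Vp (W (K - a - b))) g + (if a = K then D else 0) +
        (if b = K then D else 0) + (if a = 0 ∧ b = 0 then D else 0)) :=
    Finset.sum_congr rfl fun a ha => Finset.sum_congr rfl fun b hb =>
      key a b (Finset.mem_range.1 ha) (Finset.mem_range.1 hb)
  rw [h3]
  simp only [Finset.sum_add_distrib]
  rw [sum1, sum2, sum3]
  ring

/-! ### Good families -/

section good

variable {θ : P →+ ℝ} {om : Q → ℝ} {R : Set (P × Q)} {Good : (P × Q → ℂ) → Prop}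
  {W0 : P × Q → ℂ} {ν : ℝ}

theorem good_zero (fr : Frame θ om R Good W0 ν) : Good fun _ => 0 := by
  have h := fr.smul 0 W0 fr.good0
  simpa using h

theorem good_sum (fr : Frame θ om R Good W0 ν) {ι : Type} (s : Finset ι) (F : ι → P × Q → ℂ)
    (hF : ∀ i ∈ s, Good (F i)) : Good fun g => ∑ i ∈ s, F i g := by
  classical
  induction s using Finset.induction_on with
  | empty =>
    simp only [Finset.sum_empty]
    exact good_zero fr
  | insert a s ha ih =>
    simp only [Finset.sum_insert ha]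
    exact fr.add _ _ (hF a (Finset.mem_insert_self a s))
      (ih fun i hi => hF i (Finset.mem_insert_of_mem hi))

theorem good_sub (fr : Frame θ om R Good W0 ν) {F G : P × Q → ℂ} (hF : Good F) (hG : Good G) :
    Good fun g => F g - G g := by
  have h := fr.add F _ hF (fr.smul (-1) G hG)
  have e : (fun g => F g - G g) = fun g => F g + ((-1 : ℝ) : ℂ) * G g := by
    funext g
    push_cast
    ring
  rw [e]
  exact h

theorem good_cub (fr : Frame θ om R Good W0 ν) {W : ℕ → P × Q → ℂ} {n : ℕ}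
    (hW : ∀ j ≤ n, Good (W j)) : Good (Cub W n) := by
  have e : Cub W n = fun g => ∑ a ∈ Finset.range (n + 1), ∑ b ∈ Finset.range (n + 1 - a),
    T3 (Vp (W a)) (Vp (W b)) (Vp (W (n - a - b))) g := rfl
  rw [e]
  refine good_sum fr _ (fun a g => ∑ b ∈ Finset.range (n + 1 - a),
    T3 (Vp (W a)) (Vp (W b)) (Vp (W (n - a - b))) g) fun a ha => ?_
  refine good_sum fr _ (fun b => T3 (Vp (W a)) (Vp (W b)) (Vp (W (n - a - b)))) fun b hb => ?_
  rw [Finset.mem_range] at ha hb
  exact fr.t3 _ _ _ (hW a (by omega)) (hW b (by omega)) (hW _ (by omega))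

theorem good_rh (fr : Frame θ om R Good W0 ν) {W : ℕ → P × Q → ℂ} {β : ℕ → ℝ} {n : ℕ}
    (hW : ∀ j ≤ n, Good (W j)) : Good (rh W β n) := by
  have h1 : Good fun g => ∑ i ∈ Finset.Icc 1 (n + 1),
      ((β i * (2 * (((n + 1 : ℕ) : ℝ) - i) + 1) : ℝ) : ℂ) * W (n + 1 - i) g := by
    refine good_sum fr _ (fun i g => ((β i * (2 * (((n + 1 : ℕ) : ℝ) - i) + 1) : ℝ) : ℂ) *
      W (n + 1 - i) g) fun i hi => ?_
    rw [Finset.mem_Icc] at hi
    exact fr.smul _ _ (hW _ (by omega))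
  exact good_sub fr h1 (good_cub fr hW)

/-! ### The two phases of the induction step -/

theorem phase1 (t3s : T3sStmt) (fr : Frame θ om R Good W0 ν) {K : ℕ} {W : ℕ → P × Q → ℂ}
    {β : ℕ → ℝ} (hW0 : W 0 = W0) (hβ : β 1 = ν) (hg : ∀ j ≤ K, Good (W j))
    (he : ∀ j ≤ K, ∀ g, Eqn θ om W β j g) :
    ∃ (W' : ℕ → P × Q → ℂ) (β' : ℕ → ℝ), W' 0 = W0 ∧ β' 1 = ν ∧ (∀ j ≤ K, Good (W' j)) ∧
      (∀ j ≤ K, ∀ g, Eqn θ om W' β' j g) ∧ ∀ g ∈ R, rh W' β' K g = 0 := by
  rcases Nat.eq_zero_or_pos K with hK | hK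
  · subst hK
    refine ⟨W, β, hW0, hβ, hg, he, ?_⟩
    intro g hgR
    have h1 : rh W β 0 g = (ν : ℂ) * W0 g - T3 (Vp W0) (Vp W0) (Vp W0) g := by
      simp [rh, Cub, hW0, hβ]
    rw [h1, fr.prof g hgR, sub_self]
  · -- the right hand side without the new terms
    obtain ⟨F, hF⟩ : ∃ F : P × Q → ℂ, F = fun g => Cub W K g -
        ∑ i ∈ Finset.Icc 1 K, ((β i * (2 * (((K + 1 : ℕ) : ℝ) - i) + 1) : ℝ) : ℂ) *
          W (K + 1 - i) g := ⟨_, rfl⟩
    have hFG : Good F := by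
      rw [hF]
      refine good_sub fr (good_cub fr hg) ?_
      refine good_sum fr _ (fun i g => ((β i * (2 * (((K + 1 : ℕ) : ℝ) - i) + 1) : ℝ) : ℂ) *
        W (K + 1 - i) g) fun i hi => ?_
      rw [Finset.mem_Icc] at hi
      exact fr.smul _ _ (hg _ (by omega))
    have hK1 : (1 : ℝ) ≤ K := by exact_mod_cast hK
    obtain ⟨Z, b, hZG, hZ0, hZ⟩ := fr.inv ((2 * K + 1) * ν)
      (mul_le_mul_of_nonneg_right (by linarith) fr.pos.le) F hFG
    obtain ⟨W', hW'⟩ : ∃ W' : ℕ → P × Q → ℂ,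
        W' = fun j => if j = K then (fun g => W K g + Z g) else W j := ⟨_, rfl⟩
    obtain ⟨β', hβ'⟩ : ∃ β' : ℕ → ℝ, β' = fun i => if i = K + 1 then b else β i := ⟨_, rfl⟩
    have w1 : ∀ j < K, W' j = W j := fun j hj => by
      rw [hW']
      simp [hj.ne]
    have w2 : W' K = fun g => W K g + Z g := by
      rw [hW']
      simp
    have b1 : ∀ i ≤ K, β' i = β i := fun i hi => by
      rw [hβ']
      simp only
      rw [if_neg (by omega)]
    have b2 : β' (K + 1) = b := by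
      rw [hβ']
      simp
    refine ⟨W', β', (w1 0 hK).trans hW0, (b1 1 hK).trans hβ, ?_, ?_, ?_⟩
    · intro j hj
      rcases Nat.lt_or_ge j K with h | h
      · rw [w1 j h]
        exact hg j hj
      · have hjK : j = K := le_antisymm hj h
        subst hjK
        rw [w2]
        exact fr.add _ _ (hg j le_rfl) hZG
    · intro j hj g
      refine Eqn_congr (fun i hi => (w1 i (by omega)).symm) (fun i _ hi => (b1 i (by omega)).symm)
        ?_ (he j hj g)
      rcases Nat.lt_or_ge j K with h | h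
      · rw [w1 j h]
      · have hjK : j = K := le_antisymm hj h
        subst hjK
        rw [w2]
        by_cases hgR : g ∈ R
        · rw [fr.zero g hgR]
          simp
        · simp only [hZ0 g hgR, add_zero]
    · intro g hgR
      have c1 := Cub_update t3s hK (fun j hj => fr.sum _ (hg j hj)) (fr.sum _ hZG) w1 w2 g
      have s1 : ∑ i ∈ Finset.Icc 1 (K + 1),
          ((β' i * (2 * (((K + 1 : ℕ) : ℝ) - i) + 1) : ℝ) : ℂ) * W' (K + 1 - i) g =
          ∑ i ∈ Finset.Icc 1 (K + 1),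
          ((β' i * (2 * (((K + 1 : ℕ) : ℝ) - i) + 1) : ℝ) : ℂ) * W (K + 1 - i) g +
          ∑ i ∈ Finset.Icc 1 (K + 1), (if i = 1 then
            ((β' 1 * (2 * (((K + 1 : ℕ) : ℝ) - (1 : ℕ)) + 1) : ℝ) : ℂ) * Z g else 0) := by
        rw [← Finset.sum_add_distrib]
        refine Finset.sum_congr rfl fun i hi => ?_
        rw [Finset.mem_Icc] at hi
        by_cases h1 : i = 1
        · subst h1
          rw [if_pos rfl]
          have e : K + 1 - 1 = K := by omega
          rw [e, w2]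
          ring
        · rw [if_neg h1, w1 _ (by omega), add_zero]
      have s2 : ∑ i ∈ Finset.Icc 1 (K + 1), (if i = 1 then
            ((β' 1 * (2 * (((K + 1 : ℕ) : ℝ) - (1 : ℕ)) + 1) : ℝ) : ℂ) * Z g else 0) =
          (((2 * K + 1) * ν : ℝ) : ℂ) * Z g := by
        rw [Finset.sum_ite_eq', if_pos (Finset.mem_Icc.2 ⟨le_rfl, by omega⟩),
          (b1 1 hK).trans hβ]
        congr 2
        push_cast
        ring
      have s3 : ∑ i ∈ Finset.Icc 1 (K + 1),
          ((β' i * (2 * (((K + 1 : ℕ) : ℝ) - i) + 1) : ℝ) : ℂ) * W (K + 1 - i) g =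
          (∑ i ∈ Finset.Icc 1 K, ((β i * (2 * (((K + 1 : ℕ) : ℝ) - i) + 1) : ℝ) : ℂ) *
            W (K + 1 - i) g) + (b : ℂ) * W0 g := by
        rw [Finset.sum_Icc_succ_top (by omega), b2, Nat.sub_self, hW0, sub_self]
        congr 1
        · refine Finset.sum_congr rfl fun i hi => ?_
          rw [Finset.mem_Icc] at hi
          rw [b1 i hi.2]
        · congr 2
          ring
      have h1 := hZ g hgR
      rw [hF] at h1
      simp only at h1
      unfold rh
      rw [s1, s2, s3, c1, hW0]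
      linear_combination h1

theorem phase2 (fr : Frame θ om R Good W0 ν) {K : ℕ} {W : ℕ → P × Q → ℂ}
    {β : ℕ → ℝ} (hW0 : W 0 = W0) (hβ : β 1 = ν) (hg : ∀ j ≤ K, Good (W j))
    (he : ∀ j ≤ K, ∀ g, Eqn θ om W β j g) (hR : ∀ g ∈ R, rh W β K g = 0) :
    ∃ (W' : ℕ → P × Q → ℂ) (β' : ℕ → ℝ), W' 0 = W0 ∧ β' 1 = ν ∧ (∀ j ≤ K + 1, Good (W' j)) ∧
      ∀ j ≤ K + 1, ∀ g, Eqn θ om W' β' j g := by
  obtain ⟨X, hX⟩ : ∃ X : P × Q → ℂ,
      X = Rᶜ.indicator fun g => rh W β K g / (Complex.I * (sg θ om g : ℂ)) := ⟨_, rfl⟩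
  have hrG : Good (rh W β K) := good_rh fr hg
  have hXG : Good X := by
    rw [hX]
    exact fr.div _ hrG
  obtain ⟨W', hW'⟩ : ∃ W' : ℕ → P × Q → ℂ, W' = fun j => if j = K + 1 then X else W j := ⟨_, rfl⟩
  have w1 : ∀ j ≤ K, W' j = W j := fun j hj => by
    rw [hW']
    simp only
    rw [if_neg (by omega)]
  have w2 : W' (K + 1) = X := by
    rw [hW']
    simp
  refine ⟨W', β, (w1 0 (Nat.zero_le K)).trans hW0, hβ, ?_, ?_⟩
  · intro j hj
    rcases Nat.lt_or_ge K j with h | h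
    · have hjK : j = K + 1 := by omega
      rw [hjK, w2]
      exact hXG
    · rw [w1 j h]
      exact hg j h
  · intro j hj g
    rcases Nat.lt_or_ge K j with h | h
    · have hjK : j = K + 1 := by omega
      rw [hjK, Eqn_succ, w2, rh_congr w1 g, hX]
      by_cases hgR : g ∈ R
      · rw [fr.zero g hgR, hR g hgR]
        simp
      · rw [Set.indicator_of_mem (Set.mem_compl hgR)]
        by_cases hs : sg θ om g = 0
        · rw [hs, fr.nz _ hrG g hgR hs]
          simp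
        · have hs' : Complex.I * (sg θ om g : ℂ) ≠ 0 :=
            mul_ne_zero Complex.I_ne_zero (by exact_mod_cast hs)
          rw [mul_div_cancel₀ _ hs']
    · exact Eqn_congr (fun i hi => (w1 i (by omega)).symm) (fun i _ _ => rfl)
        (by rw [w1 j h]) (he j h g)

end good

/-- REC. -/
theorem rec (t3s : T3sStmt) : RecStmt := by
  intro P Q _ _ θ om R Good W0 ν fr K
  induction K with
  | zero =>
    refine ⟨fun _ => W0, fun _ => ν, rfl, rfl, fun _ _ => fr.good0, ?_⟩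
    intro j hj g
    have hj0 : j = 0 := Nat.le_zero.1 hj
    subst hj0
    have h1 : (sg θ om g : ℂ) * W0 g = 0 := by
      by_cases hgR : g ∈ R
      · rw [fr.zero g hgR]
        simp
      · rw [fr.supp0 g hgR, mul_zero]
    unfold Eqn
    rw [mul_assoc, h1]
    simp
  | succ K ih =>
    obtain ⟨W, β, hW0, hβ, hg, he⟩ := ih
    obtain ⟨W1, β1, h1, h2, h3, h4, h5⟩ := phase1 t3s fr hW0 hβ hg he
    exact phase2 fr h1 h2 h3 h4 h5

end Pool.Agent.BOX.H69
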